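import Mathlib
import Pool.Agent.Q81.LaguerreIneq

/-!
# The monomial test fails for the rescaled operator of a Hermite diagonal operator

`T = 1 + (x² - 1/2) D² - x D³ + D⁴/4` satisfies `T[H_n] = (n² - n + 1) H_n`.
-/

namespace Pool.Agent.Results.MP_fcf092_an.MonomialTestFails

open Polynomial

/-- Hermite polynomials `H_n(x) = (-1)^n e^{x²} D^n e^{-x²}`, via `H_{n+1} = 2 x H_n - H_n'`. -/
noncomputable def H : ℕ → ℝ[X]
  | 0 => 1
  | n + 1 => 2 * X * H n - derivative (H n)

/-- The differential operator `∑ Q_k(x) D^k` on `ℝ[x]` (for every polynomial the sum is finite). -/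
noncomputable def op (Q : ℕ → ℝ[X]) (p : ℝ[X]) : ℝ[X] :=
  ∑ k ∈ Finset.range (p.natDegree + 1), Q k * derivative^[k] p

/-- The rescaled operator `W = ∑ 2^{-k} Q_k(x) D^k`. -/
noncomputable def rescaled (Q : ℕ → ℝ[X]) (p : ℝ[X]) : ℝ[X] :=
  op (fun k => C ((2 : ℝ)⁻¹ ^ k) * Q k) p

/-- All zeros of `p` are real (constants, including `0`, are hyperbolic). -/
def Hyperbolic (p : ℝ[X]) : Prop := p = 0 ∨ ∀ z : ℂ, aeval z p = 0 → z.im = 0

/-- The coefficients `Q_0 = 1, Q_1 = 0, Q_2 = x² - 1/2, Q_3 = -x, Q_4 = 1/4`, `Q_k = 0` for `k > 4`. -/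
noncomputable def Q : ℕ → ℝ[X]
  | 0 => 1
  | 2 => X ^ 2 - C (1 / 2)
  | 3 => -X
  | 4 => C (1 / 4)
  | _ => 0

lemma op_four (R : ℕ → ℝ[X]) (hR : ∀ k, 4 < k → R k = 0) (p : ℝ[X]) :
    op R p = R 0 * p + R 1 * derivative p + R 2 * derivative (derivative p) +
      R 3 * derivative (derivative (derivative p)) +
      R 4 * derivative (derivative (derivative (derivative p))) := by
  have h1 : op R p = ∑ k ∈ Finset.range (max (p.natDegree + 1) 5), R k * derivative^[k] p := by
    unfold op
    refine Finset.sum_subset (Finset.range_subset_range.2 (le_max_left _ _)) fun k _ hk => ?_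
    rw [Finset.mem_range, not_lt] at hk
    rw [iterate_derivative_eq_zero (by omega), mul_zero]
  have h2 : ∑ k ∈ Finset.range (max (p.natDegree + 1) 5), R k * derivative^[k] p =
      ∑ k ∈ Finset.range 5, R k * derivative^[k] p := by
    symm
    refine Finset.sum_subset (Finset.range_subset_range.2 (le_max_right _ _)) fun k _ hk => ?_
    rw [Finset.mem_range, not_lt] at hk
    rw [hR k (by omega), zero_mul]
  rw [h1, h2]
  simp only [Finset.sum_range_succ, Finset.sum_range_zero, Function.iterate_succ,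
    Function.iterate_zero, Function.comp_apply, id_eq, zero_add]

lemma Q_zero_of_lt (k : ℕ) (hk : 4 < k) : Q k = 0 := by
  obtain ⟨m, rfl⟩ := Nat.exists_eq_add_of_lt hk
  rw [show 4 + m + 1 = m + 5 by omega]
  rfl

lemma op_Q (p : ℝ[X]) : op Q p = p + (X ^ 2 - C (1 / 2)) * derivative (derivative p) -
      X * derivative (derivative (derivative p)) +
      C (1 / 4) * derivative (derivative (derivative (derivative p))) := by
  rw [op_four Q Q_zero_of_lt p]
  show 1 * p + 0 * derivative p + (X ^ 2 - C (1 / 2)) * derivative (derivative p) +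
      (-X) * derivative (derivative (derivative p)) +
      C (1 / 4) * derivative (derivative (derivative (derivative p))) = _
  ring

lemma rescaled_Q (p : ℝ[X]) : rescaled Q p = p + C (1 / 4) * (X ^ 2 - C (1 / 2)) *
      derivative (derivative p) - C (1 / 8) * X * derivative (derivative (derivative p)) +
      C (1 / 64) * derivative (derivative (derivative (derivative p))) := by
  rw [rescaled, op_four _ (fun k hk => by rw [Q_zero_of_lt k hk, mul_zero]) p]
  show C ((2 : ℝ)⁻¹ ^ 0) * 1 * p + C ((2 : ℝ)⁻¹ ^ 1) * 0 * derivative p +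
      C ((2 : ℝ)⁻¹ ^ 2) * (X ^ 2 - C (1 / 2)) * derivative (derivative p) +
      C ((2 : ℝ)⁻¹ ^ 3) * (-X) * derivative (derivative (derivative p)) +
      C ((2 : ℝ)⁻¹ ^ 4) * C (1 / 4) * derivative (derivative (derivative (derivative p))) = _
  rw [← C_mul]
  norm_num
  ring

/-- `(x D - D²/2) H_n = n H_n`. -/
lemma eigen (n : ℕ) : X * derivative (H n) - C (1 / 2) * derivative (derivative (H n)) =
    C (n : ℝ) * H n := by
  have h2 : (2 : ℝ[X]) * C (1 / 2) = 1 := by
    rw [show (2 : ℝ[X]) = C 2 from (map_ofNat C 2).symm, ← C_mul]; norm_num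
  induction n with
  | zero => simp [H]
  | succ n ih =>
    have hd : derivative (H (n + 1)) = 2 * C ((n : ℝ) + 1) * H n := by
      rw [H, derivative_sub, mul_assoc, derivative_mul, derivative_mul, derivative_X]
      simp only [derivative_ofNat, zero_mul, zero_add, one_mul, C_add, C_1]
      linear_combination 2 * ih + derivative (derivative (H n)) * h2
    rw [hd, mul_assoc, derivative_mul, derivative_ofNat, zero_mul, zero_add, derivative_C_mul, H]
    push_cast
    linear_combination (- C ((n : ℝ) + 1) * derivative (H n)) * h2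

lemma diag (n : ℕ) : op Q (H n) = C ((n : ℝ) ^ 2 - n + 1) * H n := by
  have h2 : (2 : ℝ[X]) * C (1 / 2) = 1 := by
    rw [show (2 : ℝ[X]) = C 2 from (map_ofNat C 2).symm, ← C_mul]; norm_num
  have h4 : C (1 / 4 : ℝ) = C (1 / 2) * C (1 / 2) := by rw [← C_mul]; norm_num
  have e := eigen n
  have e1 := congrArg derivative e
  rw [derivative_sub, derivative_mul, derivative_X, one_mul, derivative_C_mul,
    derivative_C_mul] at e1
  have e2 := congrArg derivative e1
  rw [derivative_sub, derivative_add, derivative_mul, derivative_X, one_mul, derivative_C_mul,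
    derivative_C_mul] at e2
  rw [op_Q, h4]
  simp only [C_add, C_sub, C_pow, C_1]
  linear_combination (C (n : ℝ) - 1) * e + X * e1 - C (1 / 2) * e2 +
    (X * derivative (derivative (derivative (H n)))) * h2

lemma hyp_of_quartic {A B K : ℝ} (hA : 0 < A) (hB : 0 ≤ B) (hK : 0 ≤ K)
    (hd : 0 ≤ B ^ 2 - 4 * A * K) {z : ℂ} (hz : (A : ℂ) * z ^ 4 - B * z ^ 2 + K = 0) :
    z.im = 0 := by
  have h1 : (A : ℂ) * (z ^ 2) ^ 2 + ((-B : ℝ) : ℂ) * (z ^ 2) + (K : ℂ) = 0 := by
    push_cast
    linear_combination hz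
  have hd' : 0 ≤ (-B) ^ 2 - 4 * A * K := by rw [neg_sq]; exact hd
  rcases Q81.LaguerreIneq.real_of_disc hd' h1 with h2 | ⟨h2, -, -⟩
  · have hre := congrArg Complex.re h1
    have h3 : (z ^ 2).im = 0 := h2
    have e1 : (z ^ 2).re = z.re ^ 2 - z.im ^ 2 := by simp [pow_two]
    have e2 : (z ^ 2).im = 2 * z.re * z.im := by simp [pow_two]; ring
    have e3 : ((z ^ 2) ^ 2).re = (z ^ 2).re ^ 2 := by
      rw [pow_two (z ^ 2), Complex.mul_re, h3]; ring
    rw [Complex.add_re, Complex.add_re, Complex.re_ofReal_mul, Complex.re_ofReal_mul, e3,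
      Complex.ofReal_re, Complex.zero_re] at hre
    by_contra him
    have hre0 : z.re = 0 := by
      rw [e2] at h3
      rcases mul_eq_zero.1 h3 with h5 | h5
      · rcases mul_eq_zero.1 h5 with h6 | h6
        · norm_num at h6
        · exact h6
      · exact absurd h5 him
    rw [e1, hre0] at hre
    have h7 : 0 < z.im ^ 2 := by positivity
    have h8 : 0 < A * (z.im ^ 2) ^ 2 := by positivity
    nlinarith [mul_nonneg hB h7.le]
  · exact absurd h2 hA.ne'

lemma rescaled_monomial (n : ℕ) : Hyperbolic (rescaled Q (X ^ n)) := by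
  right
  intro z hz
  rw [rescaled_Q] at hz
  rcases n with _ | _ | _ | _ | n
  · simp at hz
  · simp at hz
    rw [hz]; rfl
  · have h1 : ((0 : ℝ) : ℂ) * z ^ 4 - ((0 : ℝ) : ℂ) * z ^ 2 + ((0 : ℝ) : ℂ) = 0 := by simp
    have h2 : (((3 / 2 : ℝ)) : ℂ) * z ^ 2 + ((0 : ℝ) : ℂ) * z + ((-(1 / 4) : ℝ) : ℂ) = 0 := by
      have hz' := hz
      simp [derivative_mul] at hz'
      push_cast
      linear_combination hz'
    rcases Q81.LaguerreIneq.real_of_disc (by norm_num) h2 with h3 | ⟨h3, -, -⟩
    · exact h3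
    · norm_num at h3
  · have hz' : z * ((((5 / 2 : ℝ)) : ℂ) * z ^ 2 + ((0 : ℝ) : ℂ) * z + ((-(3 / 2) : ℝ) : ℂ)) = 0 := by
      have hz' := hz
      simp [derivative_mul] at hz'
      push_cast
      linear_combination hz'
    rcases mul_eq_zero.1 hz' with h2 | h2
    · rw [h2]; rfl
    rcases Q81.LaguerreIneq.real_of_disc (by norm_num) h2 with h3 | ⟨h3, -, -⟩
    · exact h3
    · norm_num at h3
  · set N : ℝ := (n : ℝ) + 4 with hN
    have hN4 : (4 : ℝ) ≤ N := by
      have : (0 : ℝ) ≤ n := Nat.cast_nonneg n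
      linarith
    have hz' : z ^ n * (((1 + N * (N - 1) / 4 : ℝ) : ℂ) * z ^ 4 -
        ((N * (N - 1) ^ 2 / 8 : ℝ) : ℂ) * z ^ 2 +
        ((N * (N - 1) * (N - 2) * (N - 3) / 64 : ℝ) : ℂ)) = 0 := by
      have hz' := hz
      simp only [derivative_X_pow, derivative_mul, derivative_natCast, zero_mul, zero_add,
        Nat.add_sub_cancel, C_eq_natCast] at hz'
      simp at hz'
      rw [hN]
      push_cast
      linear_combination hz'
    rcases mul_eq_zero.1 hz' with h2 | h2
    · have hz0 : z = 0 := by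
        by_contra h
        exact pow_ne_zero n h h2
      rw [hz0]; rfl
    refine hyp_of_quartic ?_ ?_ ?_ ?_ h2
    · have : 0 ≤ N * (N - 1) := by nlinarith
      linarith
    · have : 0 ≤ N * (N - 1) ^ 2 := by positivity
      linarith
    · have : 0 ≤ N * (N - 1) * (N - 2) * (N - 3) := by
        have h3 : 0 ≤ N - 1 := by linarith
        have h4 : 0 ≤ N - 2 := by linarith
        have h5 : 0 ≤ N - 3 := by linarith
        positivity
      linarith
    · have h3 : (N * (N - 1) ^ 2 / 8) ^ 2 -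
          4 * (1 + N * (N - 1) / 4) * (N * (N - 1) * (N - 2) * (N - 3) / 64) =
          N * (N - 1) * (3 * N ^ 3 - 12 * N ^ 2 + 25 * N - 24) / 64 := by ring
      rw [h3]
      have h4 : 0 ≤ N * (N - 1) := by nlinarith
      have h5 : 0 ≤ 3 * N ^ 3 - 12 * N ^ 2 + 25 * N - 24 := by nlinarith [sq_nonneg N]
      positivity

lemma not_hyp : ¬ Hyperbolic (rescaled Q ((X + 1) ^ 2)) := by
  have h2 : rescaled Q ((X + 1) ^ 2) = C (3 / 2) * X ^ 2 + C 2 * X + C (3 / 4) := by
    rw [rescaled_Q]
    have hd1 : derivative ((X + 1 : ℝ[X]) ^ 2) = C 2 * X + C 2 := by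
      simp [derivative_pow]
      ring
    rw [hd1]
    have hd2 : derivative (C 2 * X + C 2 : ℝ[X]) = C 2 := by simp
    rw [hd2, derivative_C, derivative_zero]
    have e : (X + 1 : ℝ[X]) = X + C 1 := by simp
    rw [e]
    apply Polynomial.funext
    intro r
    simp
    ring
  rw [h2]
  rintro (h | h)
  · have := congrArg (eval 0) h
    norm_num at this
  · set s : ℝ := Real.sqrt (1 / 2) / 3 with hs
    have hs2 : s ^ 2 = 1 / 18 := by
      rw [hs, div_pow, Real.sq_sqrt (by norm_num)]; norm_num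
    have h1 := h ⟨-(2 / 3), s⟩ (by
      simp only [map_add, map_mul, aeval_C, aeval_X, map_pow, Complex.coe_algebraMap]
      apply Complex.ext
      · simp [pow_two]
        norm_num
        nlinarith
      · simp [pow_two]
        norm_num
        ring)
    have h3 : s = 0 := h1
    rw [h3] at hs2
    norm_num at hs2

lemma hyp_sq : Hyperbolic ((X + 1) ^ 2 : ℝ[X]) := by
  right
  intro z hz
  simp at hz
  have : z = -1 := by linear_combination hz
  rw [this]; simp

/-- There is a Hermite diagonal differential operator `T = ∑ Q_k(x) D^k`, `T[H_n] = γ_n H_n`, such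
that all `W[x^n]` are hyperbolic, where `W = ∑ 2^{-k} Q_k(x) D^k`, while `W` maps some hyperbolic
polynomial to a polynomial that is not hyperbolic. The example has `γ_n = n² - n + 1`, so that all
eigenvalues are positive and form a nondecreasing sequence. -/
theorem result : ∃ (Q : ℕ → ℝ[X]) (γ : ℕ → ℝ), (∀ n, op Q (H n) = C (γ n) * H n) ∧
    (∀ n, 0 < γ n) ∧ Monotone γ ∧
    (∀ n : ℕ, Hyperbolic (rescaled Q (X ^ n))) ∧
    ∃ p : ℝ[X], Hyperbolic p ∧ ¬ Hyperbolic (rescaled Q p) := by
  refine ⟨Q, fun n => (n : ℝ) ^ 2 - n + 1, diag, fun n => ?_, ?_, rescaled_monomial,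
    (X + 1) ^ 2, hyp_sq, not_hyp⟩
  · show 0 < (n : ℝ) ^ 2 - n + 1
    nlinarith [sq_nonneg ((n : ℝ) - 1 / 2)]
  · refine monotone_nat_of_le_succ fun n => ?_
    show (n : ℝ) ^ 2 - n + 1 ≤ ((n + 1 : ℕ) : ℝ) ^ 2 - ((n + 1 : ℕ) : ℝ) + 1
    push_cast
    nlinarith [Nat.cast_nonneg (α := ℝ) n]

end Pool.Agent.Results.MP_fcf092_an.MonomialTestFails
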